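import Pool.Agent.L0h79.FR.Defs
import Pool.Agent.TH796.AL.All
import Pool.Agent.TH796.AL.Lin

/-!
# Project FR: values of the ring at bounded elements
-/

set_option autoImplicit false
set_option linter.all false

namespace Pool.Agent.L0h96.FR.Evd

open Filter Topology Pool.Agent.TH932.Abs Pool.Agent.TH932.Germs Pool.Agent.TH932.Chi
open Pool.Agent.TH796.AL Pool.Agent.TH796.AL.Lin Pool.Agent.L0h79.FR

variable {m : ℕ} {B : Base m} {L : ℕ → ℝ} (hL : Tendsto L atTop atTop)

lemma ch_SS (g : Fin m → ℝ) (t : ℝ) (ht : ∀ i, t ≤ g i * Real.log (B.P i)) :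
    ch B hL g ∈ SS L (RS B) t := by
  rw [ch_eq, mem_SS]
  intro ε hε
  have h1 : ∀ᶠ n in (UU : Filter ℕ), ∀ i, |((⌊ell hL (g i) n⌋ : ℤ) : ℝ) - g i * L n|
      ≤ ε / Real.log (B.P i) * L n := by
    rw [Filter.eventually_all]
    intro i
    have := B.log_pos i
    exact ev_of_atTop (fl_near hL (g i) (by positivity))
  filter_upwards [h1, L_nonneg hL] with n h1 h3
  refine ⟨1, 1, fun i => ⌊ell hL (g i) n⌋, one_ne_zero, ?_, by simp, fun i => ?_⟩
  · simp only [Int.cast_one, abs_one]
    exact Real.one_le_exp (by positivity)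
  · have hlp := B.log_pos i
    have h4 := (abs_le.1 (h1 i)).1
    have h5 : (g i * L n - ε / Real.log (B.P i) * L n) * Real.log (B.P i)
        ≤ ((⌊ell hL (g i) n⌋ : ℤ) : ℝ) * Real.log (B.P i) := by
      gcongr; linarith
    have h6 : (g i * L n - ε / Real.log (B.P i) * L n) * Real.log (B.P i)
        = (g i * Real.log (B.P i) - ε) * L n := by
      field_simp
    have h7 := ht i
    nlinarith

theorem evd (hkpq : S_KPQ) : S_EVD := by
  intro m B L hL c hc
  have h1 : ∀ g : Fin m → ℝ, (∀ u, |lv B u g| ≤ c) → ch B hL g ∈ SS L (RS B) (-c) := by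
    intro g hg
    refine ch_SS hL g (-c) fun i => ?_
    exact (abs_le.1 (hg (some i))).1
  refine ⟨h1, fun D hD => ⟨fun v => ?_, ?_, fun hD0 hcon => ?_⟩⟩
  · rw [ev_sum]
    refine Finset.sum_induction _ (fun x => x ∈ Sv B L v (-c)) (fun _ _ => (filt_v (B := B) hL v).add_mem)
      ((filt_v (B := B) hL v).zero_mem _) fun g hg => ?_
    have h2 := (filt_v (B := B) hL v).mul_mem ((filt_v (B := B) hL v).alg_mem (D.coeff g))
      (ch_mem (B := B) hL v g)
    refine (filt_v (B := B) hL v).anti ?_ h2
    rw [zero_add]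
    exact (abs_le.1 (hD g (Finsupp.mem_support_iff.1 hg) v)).1
  · rw [ev_sum]
    refine Finset.sum_induction _ (fun x => x ∈ SS L (RS B) (-c)) (fun _ _ => (filt_S (B := B) hL).add_mem)
      ((filt_S (B := B) hL).zero_mem _) fun g hg => ?_
    have h2 := (filt_S (B := B) hL).mul_mem ((filt_S (B := B) hL).alg_mem (D.coeff g))
      (h1 g fun u => hD g (Finsupp.mem_support_iff.1 hg) u)
    refine (filt_S (B := B) hL).anti ?_ h2
    rw [zero_add]
  · have hK := hkpq m B L hL ⊥ inferInstance Unit inferInstance (fun _ => 1) 0 le_rfl (by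
      intro A hA j
      have h1 : ev B hL (A ()) = 0 := by simpa using hA
      exact su_thm m B L hL _ h1) (by
      intro v _
      have h1 := (filt_v (B := B) hL v).alg_mem 1
      rw [map_one] at h1
      rw [neg_zero]
      exact h1) (by
      intro _
      have := Sint.alg (B := B) hL 1
      simpa using this)
    obtain ⟨g, hg⟩ : ∃ g, D.coeff g ≠ 0 := by
      by_contra hcc
      push Not at hcc
      apply hD0
      apply AddMonoidAlgebra.coeff_injective
      ext x
      have := hcc x
      simp [this]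
    have h2 := hK (fun _ => incR hL ⊥ D) (c + 1) (by
      simp only [Finset.univ_unique, Finset.sum_singleton, map_one, mul_one]
      rw [evA_incR]
      exact hcon) () g (by
      rw [incR_coeff]
      intro h0
      apply hg
      have h3 := congrArg (fun x : KA ⊥ hL => (x : HR)) h0
      simp only [inc_coe] at h3
      have h4 : rho (D.coeff g : GG) = rho 0 := by rw [h3, map_zero]; rfl
      exact Subtype.ext (rho_injective h4))
    have h5 := (abs_le.1 (hD g hg none)).2
    simp only [mul_zero, zero_mul, add_zero] at h2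
    linarith

end Pool.Agent.L0h96.FR.Evd
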