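import Pool.Agent.L0h79.FR.Defs
import Pool.Agent.TH796.AL.Dir

/-!
# Project FR: a maximal independent subfamily with bounded relations
-/

set_option autoImplicit false
set_option linter.all false

namespace Pool.Agent.L0h96.FR

open Filter Topology Pool.Agent.TH932.Abs Pool.Agent.TH932.Germs Pool.Agent.TH932.Chi
open Pool.Agent.TH796.AL Pool.Agent.L0h79.FR

variable {m : ℕ} {B : Base m} {L : ℕ → ℝ} {hL : Tendsto L atTop atTop}

lemma bdd_mono {c c' : ℝ} {f : Rg m hL} (h : Bdd B c f) (hc : c ≤ c') : Bdd B c' f :=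
  fun g hg v => (h g hg v).trans hc

lemma bdd_mul {c c' : ℝ} {f f' : Rg m hL} (h : Bdd B c f) (h' : Bdd B c' f') :
    Bdd B (c + c') (f * f') := by
  intro g hg v
  obtain ⟨a, b, ha, hb, rfl⟩ := Pool.Agent.TH796.AL.Dir.supp_mul hL hg
  rw [lv_add]
  exact (abs_add_le _ _).trans (add_le_add (h a ha v) (h' b hb v))

lemma bdd_single0 (r : KK L hL) : Bdd B 0 (AddMonoidAlgebra.single (0 : Fin m → ℝ) r) := by
  classical
  intro g hg v
  have h0 : g = 0 := by
    by_contra hne
    apply hg
    rw [AddMonoidAlgebra.coeff_single, Finsupp.single_apply, if_neg (Ne.symm hne)]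
  subst h0
  have h1 := lv_add (B := B) v 0 0
  rw [add_zero] at h1
  have h2 : lv B v 0 = 0 := by linarith
  rw [h2, abs_zero]

lemma bdd_one : Bdd B 0 (1 : Rg m hL) := by
  rw [AddMonoidAlgebra.one_def]
  exact bdd_single0 _

lemma bdd_zero {c : ℝ} : Bdd B c (0 : Rg m hL) := by
  intro g hg
  exact absurd (by simp) hg

lemma bdd_prod {ι : Type*} (s : Finset ι) (c : ℝ) (f : ι → Rg m hL) (h : ∀ i ∈ s, Bdd B c (f i)) :
    Bdd B (s.card * c) (∏ i ∈ s, f i) := by
  classical
  induction s using Finset.induction_on with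
  | empty => simpa using (bdd_one : Bdd B 0 (1 : Rg m hL))
  | insert a s ha ih =>
    rw [Finset.prod_insert ha, Finset.card_insert_of_notMem ha]
    have h1 := bdd_mul (h a (Finset.mem_insert_self _ _))
      (ih fun i hi => h i (Finset.mem_insert_of_mem hi))
    refine bdd_mono h1 (le_of_eq ?_)
    push_cast
    ring

theorem ind (hrel : S_REL) : S_IND := by
  classical
  intro m B L hL Z _ z C hC hz hzS
  let _ : Algebra (Rg m hL) GG := (ev B hL).toAlgebra
  have hsm : ∀ (a : Rg m hL) (g : GG), a • g = ev B hL a * g := fun a g => rfl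
  obtain ⟨s, hs, hmax⟩ := exists_maximal_linearIndepOn (Rg m hL) z
  have : Fintype s := Fintype.ofFinite s
  set c0 : ℝ := 2 * (m + 1) * C * (Fintype.card s + 1) with hc0
  have hc0' : 0 ≤ c0 := by positivity
  have hind : ∀ A : s → Rg m hL, ∑ j, ev B hL (A j) * z (j : Z) = 0 → ∀ j, A j = 0 := by
    intro A hA
    have h3 : LinearIndependent (Rg m hL) (fun j : s => z j) := hs
    exact Fintype.linearIndependent_iff.1 h3 A (by
      rw [← hA]
      exact Finset.sum_congr rfl fun j _ => hsm _ _)
  have h1 : ∀ i, ∃ a : Rg m hL, a ≠ 0 ∧ Bdd B c0 a ∧ ∃ c : s → Rg m hL,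
      (∀ j, Bdd B c0 (c j)) ∧ ev B hL a * z i = ∑ j, ev B hL (c j) * z j := by
    intro i
    by_cases hi : i ∈ s
    · refine ⟨1, one_ne_zero, bdd_mono bdd_one hc0', fun j => if (j : Z) = i then 1 else 0, ?_, ?_⟩
      · intro j
        by_cases hj : (j : Z) = i
        · simp only [if_pos hj]
          exact bdd_mono bdd_one hc0'
        · simp only [if_neg hj]
          exact bdd_zero
      · rw [map_one, one_mul, Finset.sum_eq_single (⟨i, hi⟩ : s)]
        · simp
        · intro b _ hb
          have hb' : (b : Z) ≠ i := fun h => hb (Subtype.ext h)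
          simp only [if_neg hb', map_zero, zero_mul]
        · intro h
          exact absurd (Finset.mem_univ _) h
    · obtain ⟨a, ha, h2⟩ := hmax i hi
      rw [Set.image_eq_range] at h2
      obtain ⟨c, hc⟩ := (Submodule.mem_span_range_iff_exists_fun (Rg m hL)).1 h2
      obtain ⟨D, H, hD, hDH, hDb, hHb⟩ := hrel m B L hL s inferInstance (fun j => z j) (z i) C hC
        hind ⟨a, c, ha, by
          rw [← hsm, ← hc]
          exact Finset.sum_congr rfl fun j _ => (hsm _ _).symm⟩
        (fun v j => hz v j) (fun v => hz v i) (fun j => hzS j) (hzS i)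
      exact ⟨D, hD, hDb, H, hHb, hDH⟩
  choose a ha hab c hcb hc using h1
  have hcard : Fintype.card s ≤ Fintype.card Z := Fintype.card_le_of_injective _ Subtype.val_injective
  have hk : (Fintype.card s : ℝ) ≤ Fintype.card Z := by exact_mod_cast hcard
  have hfin : (Fintype.card Z : ℝ) * c0 ≤ 2 * (m + 1) * C * (Fintype.card Z + 1) ^ 2 := by
    have hn : (0 : ℝ) ≤ Fintype.card Z := by positivity
    have hK : (0 : ℝ) ≤ 2 * (m + 1) * C := by positivity
    rw [hc0]
    nlinarith [mul_le_mul_of_nonneg_left hk (mul_nonneg hK hn), mul_nonneg hK hn,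
      mul_nonneg hK (mul_nonneg hn hn)]
  refine ⟨s, inferInstance, fun j => (j : Z), ∏ i, a i,
    fun i j => (∏ i' ∈ Finset.univ.erase i, a i') * c i j, hcard, hind, ?_, ?_, ?_, ?_⟩
  · exact Finset.prod_ne_zero_iff.2 fun i _ => ha i
  · intro i
    have h4 := hc i
    rw [← Finset.mul_prod_erase _ _ (Finset.mem_univ i), map_mul, mul_comm (ev B hL (a i)),
      mul_assoc, h4, Finset.mul_sum]
    refine Finset.sum_congr rfl fun j _ => ?_
    rw [map_mul, mul_assoc]
  · refine bdd_mono (bdd_prod Finset.univ c0 a fun i _ => hab i) ?_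
    rw [Finset.card_univ]
    exact hfin
  · intro i j
    refine bdd_mono (bdd_mul (bdd_prod (Finset.univ.erase i) c0 a fun i' _ => hab i') (hcb i j)) ?_
    refine le_trans (le_of_eq ?_) hfin
    have h5 : (Finset.univ.erase i).card + 1 = Fintype.card Z := by
      rw [Finset.card_erase_of_mem (Finset.mem_univ i), Finset.card_univ]
      have : 0 < Fintype.card Z := Fintype.card_pos_iff.2 ⟨i⟩
      omega
    have h6 : ((Finset.univ.erase i).card : ℝ) + 1 = Fintype.card Z := by exact_mod_cast h5
    rw [← h6]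
    ring

end Pool.Agent.L0h96.FR
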